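import Pool.Agent.H588_FS.Ell

set_option autoImplicit false
open Filter Topology
open scoped ENNReal

namespace Pool.Agent.H588_FS

theorem Pn_Wn_Pn (k m n : ℕ) (h : m + k < n) (x : ell) : Pn k (Wn n (Pn m x)) = 0 := by
  apply lp.ext; funext j
  simp only [Pn_apply, Wn_apply]
  rw [lp.coeFn_zero, Pi.zero_apply]
  by_cases h1 : j ≤ k
  · rw [if_pos h1]
    by_cases h2 : j ≤ n
    · rw [if_pos h2, if_neg (by omega)]
    · rw [if_neg h2]
  · rw [if_neg h1]

theorem inner_bound (k m n : ℕ) (h : m + k < n) (x v : ell) :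
    ‖(inner ℂ (Wn n x) v : ℂ)‖ ≤ ‖x‖ * ‖v - Pn k v‖ + ‖x - Pn m x‖ * ‖v‖ := by
  have e1 : Wn n x = Wn n (Pn m x) + Wn n (x - Pn m x) := by rw [← map_add]; congr 1; abel
  have e2 : (inner ℂ (Wn n (Pn m x)) v : ℂ) = inner ℂ (Wn n (Pn m x)) (v - Pn k v) := by
    rw [inner_sub_right, ← inner_Pn, Pn_Wn_Pn k m n h, inner_zero_left, sub_zero]
  rw [e1, inner_add_left, e2]
  refine (norm_add_le _ _).trans (add_le_add ?_ ?_)
  · refine (norm_inner_le_norm _ _).trans ?_
    exact mul_le_mul_of_nonneg_right ((norm_Wn_le _ _).trans (norm_Pn_le _ _)) (norm_nonneg _)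
  · refine (norm_inner_le_norm _ _).trans ?_
    exact mul_le_mul_of_nonneg_right (norm_Wn_le _ _) (norm_nonneg _)

theorem tendsto_sub_Pn (x : ell) : Tendsto (fun n => ‖x - Pn n x‖) atTop (𝓝 0) := by
  have h := ((tendsto_Pn x).const_sub x).norm
  simpa using h

theorem tendsto_inner_Wn (x v : ell) : Tendsto (fun n => (inner ℂ (Wn n x) v : ℂ)) atTop (𝓝 0) := by
  rw [Metric.tendsto_atTop]
  intro ε hε
  have h1 : Tendsto (fun k => ‖x‖ * ‖v - Pn k v‖) atTop (𝓝 0) := by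
    simpa using (tendsto_sub_Pn v).const_mul ‖x‖
  have h2 : Tendsto (fun k => ‖x - Pn k x‖ * ‖v‖) atTop (𝓝 0) := by
    simpa using (tendsto_sub_Pn x).mul_const ‖v‖
  obtain ⟨k, hk⟩ := (h1.eventually (gt_mem_nhds (half_pos hε))).exists
  obtain ⟨m, hm⟩ := (h2.eventually (gt_mem_nhds (half_pos hε))).exists
  refine ⟨m + k + 1, fun n hn => ?_⟩
  rw [dist_zero_right]
  have := inner_bound k m n (by omega) x v
  linarith

theorem tendsto_compact_Wn (K : ell →L[ℂ] ell) (hK : IsCompactOperator K) (x : ell) :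
    Tendsto (fun n => K (Wn n x)) atTop (𝓝 0) := by
  apply tendsto_of_subseq_tendsto
  intro ns hns
  have hc : IsCompact (closure (K '' Metric.closedBall 0 ‖x‖)) :=
    hK.isCompact_closure_image_closedBall (f := (K : ell →ₗ[ℂ] ell)) ‖x‖
  have hmem : ∀ k, K (Wn (ns k) x) ∈ closure (K '' Metric.closedBall 0 ‖x‖) := by
    intro k
    apply subset_closure
    refine ⟨Wn (ns k) x, ?_, rfl⟩
    rw [mem_closedBall_zero_iff]
    exact norm_Wn_le _ _
  obtain ⟨y, _, φ, hφ, hlim⟩ := hc.tendsto_subseq hmem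
  refine ⟨φ, ?_⟩
  have h1 : Tendsto (fun k => (inner ℂ (K (Wn (ns (φ k)) x)) y : ℂ)) atTop (𝓝 (inner ℂ y y)) :=
    hlim.inner tendsto_const_nhds
  have h2 : Tendsto (fun k => (inner ℂ (K (Wn (ns (φ k)) x)) y : ℂ)) atTop (𝓝 0) := by
    have h3 := (tendsto_inner_Wn x (ContinuousLinearMap.adjoint K y)).comp
      (hns.comp hφ.tendsto_atTop)
    refine h3.congr fun k => ?_
    exact ContinuousLinearMap.adjoint_inner_right _ _ _
  have h4 := tendsto_nhds_unique h1 h2
  rw [inner_self_eq_zero] at h4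
  rw [h4] at hlim
  exact hlim

theorem tendsto_Pn_of_tendsto {y : ℕ → ell} {z : ell} (h : Tendsto y atTop (𝓝 z)) :
    Tendsto (fun n => Pn n (y n)) atTop (𝓝 z) := by
  have h1 : Tendsto (fun n => Pn n (y n - z)) atTop (𝓝 0) := by
    have h2 : Tendsto (fun n => ‖y n - z‖) atTop (𝓝 0) := by
      simpa using (h.sub_const z).norm
    exact squeeze_zero_norm (fun n => norm_Pn_le _ _) h2
  have h3 := h1.add (tendsto_Pn z)
  rw [zero_add] at h3
  refine h3.congr fun n => ?_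
  rw [map_sub, sub_add_cancel]

theorem tendsto_Wn_zero {y : ℕ → ell} (h : Tendsto y atTop (𝓝 0)) :
    Tendsto (fun n => Wn n (y n)) atTop (𝓝 0) := by
  have h2 : Tendsto (fun n => ‖y n‖) atTop (𝓝 0) := by simpa using h.norm
  exact squeeze_zero_norm (fun n => norm_Wn_le _ _) h2

theorem norm_tendsto_zero (A : ℕ → (ell →L[ℂ] ell)) (K K' : ell →L[ℂ] ell)
    (hK : IsCompactOperator K) (hK' : IsCompactOperator K') (C : ℕ → (ell →L[ℂ] ell))
    (hC : Tendsto (fun n => ‖C n‖) atTop (𝓝 0))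
    (hA : ∀ n, A n = Pn n * K * Pn n + Wn n * K' * Wn n + C n)
    (h1 : ∀ x, Tendsto (fun n => A n x) atTop (𝓝 0))
    (h2 : ∀ x, Tendsto (fun n => (Wn n * A n * Wn n) x) atTop (𝓝 0)) :
    Tendsto (fun n => ‖A n‖) atTop (𝓝 0) := by
  have hCx : ∀ (x : ell) (y : ℕ → ell), (∀ n, ‖y n‖ ≤ ‖x‖) →
      Tendsto (fun n => C n (y n)) atTop (𝓝 0) := by
    intro x y hy
    have h3 : Tendsto (fun n => ‖C n‖ * ‖x‖) atTop (𝓝 0) := by
      simpa using hC.mul_const ‖x‖
    refine squeeze_zero_norm (fun n => ?_) h3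
    exact ((C n).le_opNorm _).trans (mul_le_mul_of_nonneg_left (hy n) (norm_nonneg _))
  have e1 : ∀ x n, A n x = Pn n (K (Pn n x)) + Wn n (K' (Wn n x)) + C n x := by
    intro x n
    rw [hA n]; rfl
  have e2 : ∀ x n, (Wn n * A n * Wn n) x =
      Wn n (K (Wn n x)) + Pn n (K' (Pn n x)) + Wn n (C n (Wn n x)) := by
    intro x n
    show Wn n (A n (Wn n x)) = _
    rw [e1, map_add, map_add, Wn_Pn, Pn_Wn, Wn_Wn, Wn_Wn]
  have k1 : ∀ x, K x = 0 := by
    intro x
    have t1 : Tendsto (fun n => Pn n (K (Pn n x))) atTop (𝓝 (K x)) :=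
      tendsto_Pn_of_tendsto ((K.continuous.tendsto x).comp (tendsto_Pn x))
    have t2 : Tendsto (fun n => Wn n (K' (Wn n x))) atTop (𝓝 0) :=
      tendsto_Wn_zero (tendsto_compact_Wn K' hK' x)
    have t3 := hCx x (fun _ => x) (fun _ => le_rfl)
    have t4 := (t1.add t2).add t3
    have t5 := h1 x
    simp_rw [e1] at t5
    have := tendsto_nhds_unique t4 t5
    simpa using this
  have k2 : ∀ x, K' x = 0 := by
    intro x
    have t1 : Tendsto (fun n => Pn n (K' (Pn n x))) atTop (𝓝 (K' x)) :=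
      tendsto_Pn_of_tendsto ((K'.continuous.tendsto x).comp (tendsto_Pn x))
    have t2 : Tendsto (fun n => Wn n (K (Wn n x))) atTop (𝓝 0) :=
      tendsto_Wn_zero (tendsto_compact_Wn K hK x)
    have t3 : Tendsto (fun n => Wn n (C n (Wn n x))) atTop (𝓝 0) :=
      tendsto_Wn_zero (hCx x (fun n => Wn n x) (fun n => norm_Wn_le _ _))
    have t4 := (t2.add t1).add t3
    have t5 := h2 x
    simp_rw [e2] at t5
    have := tendsto_nhds_unique t4 t5
    simpa using this
  have e3 : ∀ n, A n = C n := by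
    intro n
    ext1 x
    rw [e1, k1, k2]
    simp
  simp_rw [e3]
  exact hC

end Pool.Agent.H588_FS
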