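import Pool.Agent.H588_FS.Toep

set_option autoImplicit false
open Filter Topology MeasureTheory AddCircle
open scoped ENNReal Real

namespace Pool.Agent.H588_FS

open Pool.Agent.H588_SG (mulOp coeFn_mulOp norm_sq_eq)

variable {r : ℝ} (h0 : 0 ≤ r) (h1 : r < 1)

include h0 h1 in
theorem summable_four : Summable fun k : ℕ => ((r ^ k : ℝ) : ℂ) • (fourier (k : ℤ) : C(Cc, ℂ)) := by
  apply Summable.of_norm_bounded (g := fun k : ℕ => r ^ k) (summable_geometric_of_lt_one h0 h1)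
  intro k
  rw [norm_smul, fourier_norm, mul_one, Complex.norm_real, Real.norm_eq_abs,
    abs_of_nonneg (pow_nonneg h0 k)]

/-- the function `(1 - r ζ)⁻¹` -/
noncomputable def gg (r : ℝ) : C(Cc, ℂ) := ∑' k : ℕ, ((r ^ k : ℝ) : ℂ) • (fourier (k : ℤ) : C(Cc, ℂ))

include h0 h1 in
theorem gg_apply (t : Cc) : gg r t = (1 - r * fourier 1 t)⁻¹ := by
  have h := (summable_four h0 h1).hasSum
  have h2 := (ContinuousMap.evalCLM ℂ t).hasSum h
  have h3 : ∀ k : ℕ, (ContinuousMap.evalCLM ℂ t) (((r ^ k : ℝ) : ℂ) • (fourier (k : ℤ) : C(Cc, ℂ))) =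
      ((r : ℂ) * fourier 1 t) ^ k := by
    intro k
    show ((r ^ k : ℝ) : ℂ) • (fourier (k : ℤ) t : ℂ) = _
    rw [fourier_natCast, smul_eq_mul, mul_pow]
    push_cast
    rfl
  simp_rw [h3] at h2
  have h4 : ‖(r : ℂ) * fourier 1 t‖ < 1 := by
    rw [norm_mul, norm_fourier_one, Complex.norm_real, Real.norm_eq_abs, abs_of_nonneg h0, mul_one]
    exact h1
  have h5 := hasSum_geometric_of_norm_lt_one h4
  exact h2.unique h5

theorem E_v : E (v r h0 h1) = ContinuousMap.toLp 2 hm ℂ (gg r) := by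
  have hs := lp.hasSum_single (p := 2) (by norm_num) (v r h0 h1)
  have hs2 := E.toContinuousLinearMap.hasSum hs
  have hg := (ContinuousMap.toLp (E := ℂ) 2 hm ℂ).hasSum (summable_four h0 h1).hasSum
  have h3 : ∀ k : ℕ, E.toContinuousLinearMap (lp.single 2 k ((v r h0 h1) k)) =
      ContinuousMap.toLp (E := ℂ) 2 hm ℂ (((r ^ k : ℝ) : ℂ) • (fourier (k : ℤ) : C(Cc, ℂ))) := by
    intro k
    have h4 : (lp.single 2 k ((v r h0 h1) k) : ell) = ((r ^ k : ℝ) : ℂ) • e k := by
      unfold e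
      rw [← lp.single_smul, v_apply]
      simp
    rw [h4, map_smul, map_smul]
    congr 1
    exact E_e k
  simp_rw [h3] at hs2
  exact hs2.unique hg

theorem Tadj_v : ContinuousLinearMap.adjoint T (v r h0 h1) =
    ((Real.exp ((r + 1) / (r - 1)) : ℝ) : ℂ) • v r h0 h1 := by
  apply lp.ext
  funext j
  rw [← inner_e_left, ContinuousLinearMap.adjoint_inner_right]
  unfold T
  rw [inner_Tp', E_e, E_v, L2.inner_def]
  have h2 : ∫ t : Cc, inner ℂ ((mulOp (μ := hm) b measurable_b 1 (fun t => (norm_b t).le)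
      (fourierLp 2 (j : ℤ)) : Cc → ℂ) t) ((ContinuousMap.toLp 2 hm ℂ (gg r) : Cc → ℂ) t) ∂hm =
      ∫ t : Cc, (starRingEnd ℂ) ((fourier 1 t / (fourier 1 t - r)) * (b t * (fourier 1 t) ^ j)) ∂hm := by
    apply integral_congr_ae
    filter_upwards [coeFn_fourierLp (T := 1) 2 (j : ℤ), ContinuousMap.coeFn_toLp (p := 2) (𝕜 := ℂ) hm (gg r),
      coeFn_mulOp (μ := hm) b measurable_b 1 (fun t => (norm_b t).le) (fourierLp 2 (j : ℤ))]
      with t k1 k2 k3
    rw [k3, k1, k2, gg_apply h0 h1, RCLike.inner_apply, fourier_natCast]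
    have hz : (fourier 1 t : ℂ) ≠ 0 := by
      intro h3
      have := norm_fourier_one 1 t
      rw [h3, norm_zero] at this
      exact zero_ne_one this
    have hzz : (fourier 1 t : ℂ) * (starRingEnd ℂ) (fourier 1 t) = 1 := by
      rw [Complex.mul_conj, Complex.normSq_eq_norm_sq, norm_fourier_one]
      simp
    have h5 : (1 - (r : ℂ) * fourier 1 t)⁻¹ =
        (starRingEnd ℂ) (fourier 1 t / (fourier 1 t - r)) := by
      rw [map_div₀, map_sub, Complex.conj_ofReal]
      have hc : (starRingEnd ℂ) (fourier 1 t : ℂ) = (fourier 1 t : ℂ)⁻¹ :=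
        eq_inv_of_mul_eq_one_right hzz
      rw [hc]
      have h6 : ((fourier 1 t : ℂ)⁻¹ - r) = (fourier 1 t)⁻¹ * (1 - r * fourier 1 t) := by
        field_simp
      rw [h6, div_eq_mul_inv, mul_inv, ← mul_assoc, mul_inv_cancel₀ (inv_ne_zero hz), one_mul]
    rw [h5]
    simp only [map_mul]
  rw [h2, integral_conj, rep r h0 h1 j, map_mul, map_pow, Complex.conj_ofReal, Bf_ofReal,
    Complex.conj_ofReal, lp.coeFn_smul, Pi.smul_apply, v_apply, smul_eq_mul]
  push_cast
  rfl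

end Pool.Agent.H588_FS
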