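import Mathlib

set_option autoImplicit false
open Filter Topology
open scoped ENNReal

namespace Pool.Agent.H588_FS

/-- the space `ℓ²(ℕ)` -/
noncomputable abbrev ell : Type := lp (fun _ : ℕ => ℂ) 2

/-- the basis vectors -/
noncomputable def e (k : ℕ) : ell := lp.single 2 k (1 : ℂ)

theorem e_apply (k j : ℕ) : (e k) j = if j = k then 1 else 0 := by
  unfold e
  rw [lp.single_apply]
  by_cases h : j = k
  · subst h; simp
  · simp [h]

theorem nsq (x : ell) : ‖x‖ ^ 2 = ∑' j, ‖x j‖ ^ 2 := by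
  have h := lp.norm_rpow_eq_tsum (p := 2) (by norm_num) x
  simpa using h

theorem summ (x : ell) : Summable fun j => ‖x j‖ ^ 2 := by
  have h := (lp.memℓp x).summable (by norm_num)
  simpa using h

theorem inner_e_left (k : ℕ) (x : ell) : inner ℂ (e k) x = x k := by
  unfold e
  rw [lp.inner_single_left]
  simp

theorem inner_e_right (k : ℕ) (x : ell) : inner ℂ x (e k) = (starRingEnd ℂ) (x k) := by
  rw [← inner_conj_symm, inner_e_left]

/-- two operators which agree on the basis vectors agree -/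
theorem ext_e {A B : ell →L[ℂ] ell} (h : ∀ k, A (e k) = B (e k)) : A = B := by
  apply lp.ext_continuousLinearMap (by norm_num)
  intro k
  ext1
  exact h k

/-- finite sections -/
noncomputable def Pn (n : ℕ) : ell →L[ℂ] ell :=
  ∑ j ∈ Finset.range (n + 1),
    (lp.singleContinuousLinearMap ℂ (fun _ : ℕ => ℂ) 2 j).comp
      (lp.evalCLM ℂ (fun _ : ℕ => ℂ) 2 j)

/-- finite reflections -/
noncomputable def Wn (n : ℕ) : ell →L[ℂ] ell :=
  ∑ j ∈ Finset.range (n + 1),
    (lp.singleContinuousLinearMap ℂ (fun _ : ℕ => ℂ) 2 j).comp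
      (lp.evalCLM ℂ (fun _ : ℕ => ℂ) 2 (n - j))

theorem Pn_eq (n : ℕ) (x : ell) :
    Pn n x = ∑ j ∈ Finset.range (n + 1), lp.single 2 j (x j) := by
  unfold Pn
  rw [sum_apply]
  rfl

theorem Wn_eq (n : ℕ) (x : ell) :
    Wn n x = ∑ j ∈ Finset.range (n + 1), lp.single 2 j (x (n - j)) := by
  unfold Wn
  rw [sum_apply]
  rfl

theorem sum_single_apply (n : ℕ) (f : ℕ → ℂ) (j : ℕ) :
    ((∑ i ∈ Finset.range (n + 1), lp.single 2 i (f i) : ell) : ℕ → ℂ) j =
      if j ≤ n then f j else 0 := by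
  rw [lp.coeFn_sum, Finset.sum_apply]
  have : ∀ i, (lp.single 2 i (f i) : ell) j = if j = i then f i else 0 := by
    intro i
    rw [lp.single_apply]
    by_cases h : j = i
    · subst h; simp
    · simp [h]
  simp_rw [this]
  rw [Finset.sum_ite_eq]
  simp

theorem Pn_apply (n : ℕ) (x : ell) (j : ℕ) : (Pn n x) j = if j ≤ n then x j else 0 := by
  rw [Pn_eq, sum_single_apply]

theorem Wn_apply (n : ℕ) (x : ell) (j : ℕ) : (Wn n x) j = if j ≤ n then x (n - j) else 0 := by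
  rw [Wn_eq, sum_single_apply n (fun j => x (n - j))]

theorem Pn_Pn (n : ℕ) (x : ell) : Pn n (Pn n x) = Pn n x := by
  apply lp.ext; funext j
  simp only [Pn_apply]; split_ifs <;> rfl

theorem Wn_Wn (n : ℕ) (x : ell) : Wn n (Wn n x) = Pn n x := by
  apply lp.ext; funext j
  simp only [Pn_apply, Wn_apply]
  by_cases h : j ≤ n
  · simp [h, Nat.sub_sub_self h]
  · simp [h]

theorem Wn_Pn (n : ℕ) (x : ell) : Wn n (Pn n x) = Wn n x := by
  apply lp.ext; funext j
  simp only [Pn_apply, Wn_apply]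
  by_cases h : j ≤ n
  · simp [h]
  · simp [h]

theorem Pn_Wn (n : ℕ) (x : ell) : Pn n (Wn n x) = Wn n x := by
  apply lp.ext; funext j
  simp only [Pn_apply, Wn_apply]
  by_cases h : j ≤ n
  · simp [h]
  · simp [h]

theorem nsq_Pn (n : ℕ) (x : ell) : ‖Pn n x‖ ^ 2 = ∑ j ∈ Finset.range (n + 1), ‖x j‖ ^ 2 := by
  rw [nsq, tsum_eq_sum (s := Finset.range (n + 1))]
  · apply Finset.sum_congr rfl
    intro j hj
    rw [Pn_apply, if_pos (Nat.lt_succ_iff.1 (Finset.mem_range.1 hj))]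
  · intro j hj
    rw [Pn_apply, if_neg (fun h => hj (Finset.mem_range.2 (Nat.lt_succ_iff.2 h)))]
    simp

theorem nsq_Wn (n : ℕ) (x : ell) : ‖Wn n x‖ ^ 2 = ∑ j ∈ Finset.range (n + 1), ‖x j‖ ^ 2 := by
  rw [nsq, tsum_eq_sum (s := Finset.range (n + 1)), ← Finset.sum_range_reflect]
  · apply Finset.sum_congr rfl
    intro j hj
    have h := Nat.lt_succ_iff.1 (Finset.mem_range.1 hj)
    have h2 : n - (n + 1 - 1 - j) = j := by omega
    rw [Wn_apply, if_pos (by omega), h2]
  · intro j hj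
    rw [Wn_apply, if_neg (fun h => hj (Finset.mem_range.2 (Nat.lt_succ_iff.2 h)))]
    simp

theorem norm_Pn_le (n : ℕ) (x : ell) : ‖Pn n x‖ ≤ ‖x‖ := by
  apply le_of_sq_le_sq _ (norm_nonneg _)
  rw [nsq_Pn, nsq]
  exact (summ x).sum_le_tsum _ (fun i _ => by positivity)

theorem norm_Wn_le (n : ℕ) (x : ell) : ‖Wn n x‖ ≤ ‖x‖ := by
  apply le_of_sq_le_sq _ (norm_nonneg _)
  rw [nsq_Wn, nsq]
  exact (summ x).sum_le_tsum _ (fun i _ => by positivity)

theorem inner_Pn (n : ℕ) (x y : ell) : inner ℂ (Pn n x) y = inner ℂ x (Pn n y) := by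
  rw [lp.inner_eq_tsum, lp.inner_eq_tsum]
  congr 1
  funext j
  rw [Pn_apply, Pn_apply]
  split_ifs <;> simp

theorem inner_Wn (n : ℕ) (x y : ell) : inner ℂ (Wn n x) y = inner ℂ x (Wn n y) := by
  rw [lp.inner_eq_tsum, lp.inner_eq_tsum]
  rw [tsum_eq_sum (s := Finset.range (n + 1)), tsum_eq_sum (s := Finset.range (n + 1)),
    ← Finset.sum_range_reflect]
  · apply Finset.sum_congr rfl
    intro j hj
    have h := Nat.lt_succ_iff.1 (Finset.mem_range.1 hj)
    have h2 : n - (n + 1 - 1 - j) = j := by omega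
    have h3 : n - j = n + 1 - 1 - j := by omega
    rw [Wn_apply, Wn_apply, if_pos (by omega), if_pos (by omega), h2, h3]
  · intro j hj
    rw [Wn_apply, if_neg (fun h => hj (Finset.mem_range.2 (Nat.lt_succ_iff.2 h)))]
    simp
  · intro j hj
    rw [Wn_apply, if_neg (fun h => hj (Finset.mem_range.2 (Nat.lt_succ_iff.2 h)))]
    simp

theorem tendsto_Pn (x : ell) : Tendsto (fun n => Pn n x) atTop (𝓝 x) := by
  have h := (lp.hasSum_single (p := 2) (by norm_num) x).tendsto_sum_nat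
  have h2 := h.comp (tendsto_add_atTop_nat 1)
  refine h2.congr fun n => ?_
  rw [Pn_eq]
  rfl

end Pool.Agent.H588_FS
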