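import Pool.Agent.H588_FS.Eig

set_option autoImplicit false
open Filter Topology MeasureTheory AddCircle
open scoped ENNReal Real

namespace Pool.Agent.H588_FS

open Pool.Agent.H588_SG (mulOp coeFn_mulOp norm_sq_eq)

/-- the radii -/
noncomputable def rk (k : ℕ) : ℝ := 1 - 1 / (2 * (k + 1 : ℝ))

theorem rk_ge (k : ℕ) : 1 / 2 ≤ rk k := by
  unfold rk
  have h : (1 : ℝ) / (2 * (k + 1 : ℝ)) ≤ 1 / 2 := by
    apply one_div_le_one_div_of_le (by norm_num)
    have : (0 : ℝ) ≤ k := Nat.cast_nonneg k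
    linarith
  linarith

theorem rk_lt (k : ℕ) : rk k < 1 := by
  unfold rk
  have : (0 : ℝ) < 1 / (2 * (k + 1 : ℝ)) := by positivity
  linarith

theorem rk_pow (k : ℕ) : 1 / 2 ≤ rk k ^ (k + 1) := by
  have h := one_add_mul_le_pow (a := -(1 / (2 * (k + 1 : ℝ)))) (by
    have := rk_ge k
    unfold rk at this
    linarith) (k + 1)
  have h2 : 1 + ((k + 1 : ℕ) : ℝ) * -(1 / (2 * (k + 1 : ℝ))) = 1 / 2 := by
    push_cast
    field_simp
    ring
  rw [h2] at h
  have h3 : rk k = 1 + -(1 / (2 * (k + 1 : ℝ))) := by unfold rk; ring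
  rw [h3]
  exact h

/-- the eigenvalues -/
noncomputable def bk (k : ℕ) : ℝ := Real.exp ((rk k + 1) / (rk k - 1))

theorem bk_eq (k : ℕ) : bk k = Real.exp (-(4 * (k : ℝ) + 3)) := by
  unfold bk
  congr 1
  unfold rk
  have hk : ((k : ℝ) + 1) ≠ 0 := by positivity
  have h1 : (1 - 1 / (2 * ((k : ℝ) + 1)) - 1) ≠ 0 := by
    have : (0 : ℝ) < 1 / (2 * (k + 1 : ℝ)) := by positivity
    intro h
    linarith
  rw [div_eq_iff h1]
  field_simp
  ring

theorem tendsto_bk : Tendsto bk atTop (𝓝 0) := by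
  have h : bk = fun k : ℕ => Real.exp (-(4 * (k : ℝ) + 3)) := funext bk_eq
  rw [h]
  apply Real.tendsto_exp_neg_atTop_nhds_zero.comp
  apply tendsto_atTop_add_const_right
  exact (tendsto_natCast_atTop_atTop (R := ℝ)).const_mul_atTop (by norm_num)

theorem bk_pos (k : ℕ) : 0 < bk k := Real.exp_pos _

theorem bk_le_one (k : ℕ) : bk k ≤ 1 := by
  rw [bk_eq, Real.exp_le_one_iff]
  have : (0 : ℝ) ≤ k := Nat.cast_nonneg k
  linarith

theorem lower_k (k : ℕ) : 3 / 256 ≤ ‖R T (8 * k + 7) * S T (8 * k + 7)‖ + 5 * bk k := by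
  have hr0 : 0 ≤ rk k := by linarith [rk_ge k]
  have hl := lower hr0 (rk_lt k) T hT hW (bk k) (bk_pos k).le (Tadj_v hr0 (rk_lt k)) (8 * k + 7)
  set A := ‖R T (8 * k + 7) * S T (8 * k + 7)‖ with hA
  set q := rk k ^ (8 * k + 7 + 1) with hq
  have hq1 : (1 / 2 : ℝ) ^ 8 ≤ q := by
    have : q = (rk k ^ (k + 1)) ^ 8 := by
      rw [hq, ← pow_mul]
      congr 1
      ring
    rw [this]
    exact pow_le_pow_left₀ (by norm_num) (rk_pow k) 8
  have hq2 : q ≤ 1 := pow_le_one₀ hr0 (rk_lt k).le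
  have hb0 := bk_pos k
  have hb1 := bk_le_one k
  have hmain : 6 * q ≤ ((8 * k + 7 + 1 : ℕ) : ℝ) * rk k ^ (8 * k + 7) * (1 - rk k ^ 2) := by
    have e1 : (((8 * k + 7 + 1 : ℕ) : ℝ)) * (1 - rk k) = 4 := by
      unfold rk
      push_cast
      field_simp
      ring
    have e2 : ((8 * k + 7 + 1 : ℕ) : ℝ) * rk k ^ (8 * k + 7) * (1 - rk k ^ 2) =
        ((((8 * k + 7 + 1 : ℕ) : ℝ)) * (1 - rk k)) * ((1 + rk k) * rk k ^ (8 * k + 7)) := by ring
    rw [e2, e1, hq, pow_succ]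
    have e3 : 0 ≤ rk k ^ (8 * k + 7) := pow_nonneg hr0 _
    nlinarith [rk_ge k, rk_lt k, mul_nonneg e3 (sub_nonneg.2 (rk_lt k).le),
      mul_nonneg e3 (sub_nonneg.2 (rk_ge k))]
  have h3 : 6 * q ≤ A + 2 * (bk k + q) + (bk k + q) ^ 2 := hmain.trans hl
  nlinarith [mul_nonneg hb0.le (sub_nonneg.2 hq2), mul_nonneg hb0.le (sub_nonneg.2 hb1),
    mul_nonneg (sub_nonneg.2 hq1) (sub_nonneg.2 hq2)]

theorem not_tendsto : ¬ Tendsto (fun n => ‖R T n * S T n‖) atTop (𝓝 0) := by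
  intro h
  have h1 : Tendsto (fun k : ℕ => 8 * k + 7) atTop atTop := by
    apply tendsto_atTop_mono (f := fun k : ℕ => k) (fun k => by omega) tendsto_id
  have h2 := (h.comp h1).add (tendsto_bk.const_mul 5)
  have h3 : (3 / 256 : ℝ) ≤ 0 + 5 * 0 := ge_of_tendsto' h2 lower_k
  norm_num at h3

/-! ### membership in the algebra -/

/-- the generators -/
def Gen (P : ℕ → (ell →L[ℂ] ell)) : Set (ℕ → (ell →L[ℂ] ell)) :=
  {G : ℕ → (lp (fun _ : ℕ => ℂ) 2 →L[ℂ] lp (fun _ : ℕ => ℂ) 2) |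
              ∃ a : Lp ℂ ⊤ (volume : Measure (AddCircle (1 : ℝ))),
              ∃ T : lp (fun _ : ℕ => ℂ) 2 →L[ℂ] lp (fun _ : ℕ => ℂ) 2,
                (∀ j k : ℕ, (T (lp.single 2 k (1 : ℂ) : lp (fun _ : ℕ => ℂ) 2)) j
                    = fourierCoeff (⇑a : AddCircle (1 : ℝ) → ℂ) ((j : ℤ) - (k : ℤ))) ∧
                ∀ n, G n = P n * T * P n}

theorem volume_eq_hm : (volume : Measure Cc) = hm := by
  rw [volume_eq_smul_haarAddCircle, ENNReal.ofReal_one, one_smul]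

theorem ae_hm {p : Cc → Prop} (h : ∀ᵐ t ∂(volume : Measure Cc), p t) : ∀ᵐ t ∂hm, p t := by
  rwa [volume_eq_hm] at h

theorem mem_Gen (a : Cc → ℂ) (ha : Measurable a) (C : ℝ) (hC : ∀ t, ‖a t‖ ≤ C)
    (T' : ell →L[ℂ] ell)
    (hT' : ∀ j k : ℕ, (T' (e k)) j = fourierCoeff a ((j : ℤ) - (k : ℤ))) :
    (fun n => Pn n * T' * Pn n) ∈ Gen Pn := by
  have hmem : MemLp a ⊤ (volume : Measure Cc) :=
    memLp_top_of_bound ha.aestronglyMeasurable C (Eventually.of_forall hC)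
  refine ⟨hmem.toLp a, T', ?_, fun n => rfl⟩
  intro j k
  have h1 : (hmem.toLp a : Cc → ℂ) =ᵐ[haarAddCircle] a := ae_hm hmem.coeFn_toLp
  rw [fourierCoeff_congr_ae h1]
  exact hT' j k

theorem mem_T : (fun n => Pn n * T * Pn n) ∈ Gen Pn :=
  mem_Gen b measurable_b 1 (fun t => (norm_b t).le) T T_entry

theorem mem_Tadj : (fun n => Pn n * ContinuousLinearMap.adjoint T * Pn n) ∈ Gen Pn := by
  refine mem_Gen (fun t => (starRingEnd ℂ) (b t)) ?_ 1 ?_ _ ?_
  · exact Complex.continuous_conj.measurable.comp measurable_b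
  · intro t
    rw [RCLike.norm_conj]
    exact (norm_b t).le
  · intro j k
    rw [Tadj_entry, ← coeff_real]
    rw [fourierCoeff, fourierCoeff, ← integral_conj]
    congr 1
    funext t
    rw [smul_eq_mul, smul_eq_mul, map_mul]
    congr 1
    rw [← fourier_neg]
    congr 2
    ring

theorem mem_one : (fun n => Pn n) ∈ Gen Pn := by
  have h := mem_Gen (fun _ => 1) measurable_const 1 (fun t => by simp) 1 (by
    intro j k
    have h0 : (fun _ : Cc => (1 : ℂ)) = fourier 0 := by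
      funext t
      rw [fourier_zero]
    rw [h0, fourierCoeff_fourier]
    show (e k) j = _
    rw [e_apply, Pi.single_apply]
    by_cases hjk : j = k
    · rw [if_pos hjk, if_pos (by omega)]
    · rw [if_neg hjk, if_neg (by omega)])
  have h2 : (fun n => Pn n * 1 * Pn n) = fun n => Pn n := by
    funext n
    ext1 x
    exact Pn_Pn n x
  rw [h2] at h
  exact h

theorem mem_adjoin : (fun n => R T n * S T n) ∈ NonUnitalAlgebra.adjoin ℂ (Gen Pn) := by
  have h1 := NonUnitalAlgebra.subset_adjoin ℂ (s := Gen Pn) mem_one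
  have h2 := NonUnitalAlgebra.subset_adjoin ℂ (s := Gen Pn) mem_T
  have h3 := NonUnitalAlgebra.subset_adjoin ℂ (s := Gen Pn) mem_Tadj
  exact mul_mem (sub_mem h1 (mul_mem h2 h3)) (sub_mem h1 (mul_mem h3 h2))

end Pool.Agent.H588_FS
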