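import Mathlib

set_option autoImplicit false
open Filter Topology MeasureTheory AddCircle
open scoped ENNReal Real

namespace Pool.Agent.H588_FS

/-- the circle -/
abbrev Cc : Type := AddCircle (1 : ℝ)

/-- normalised Haar measure -/
noncomputable abbrev hm : Measure Cc := haarAddCircle

instance : Nontrivial Cc := by
  refine ⟨⟨((1 / 2 : ℝ) : AddCircle (1 : ℝ)), 0, fun h => ?_⟩⟩
  have h2 := congrArg (fun t => (fourier 1 t : ℂ)) h
  simp only [fourier_coe_apply] at h2
  rw [fourier_eval_zero] at h2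
  have h3 : (2 * (Real.pi : ℂ) * Complex.I * (1 : ℤ) * ((1 / 2 : ℝ) : ℂ) / (1 : ℝ)) =
      Real.pi * Complex.I := by
    push_cast; ring
  rw [h3, Complex.exp_pi_mul_I] at h2
  norm_num at h2

instance : NullSingletonClass hm := inferInstance

/-- the singular inner function -/
noncomputable def Bf (z : ℂ) : ℂ := Complex.exp ((z + 1) / (z - 1))

theorem re_quot (z : ℂ) : ((z + 1) / (z - 1)).re = (Complex.normSq z - 1) / Complex.normSq (z - 1) := by
  rw [Complex.div_re]
  simp only [Complex.add_re, Complex.sub_re, Complex.one_re, Complex.add_im, Complex.sub_im,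
    Complex.one_im]
  rw [← add_div]
  congr 1
  rw [Complex.normSq_apply]
  ring

theorem norm_Bf_le {z : ℂ} (hz : ‖z‖ ≤ 1) : ‖Bf z‖ ≤ 1 := by
  unfold Bf
  rw [Complex.norm_exp, Real.exp_le_one_iff, re_quot]
  apply div_nonpos_of_nonpos_of_nonneg
  · rw [Complex.normSq_eq_norm_sq]
    nlinarith [norm_nonneg z]
  · exact Complex.normSq_nonneg _

theorem norm_Bf_eq {z : ℂ} (hz : ‖z‖ = 1) : ‖Bf z‖ = 1 := by
  unfold Bf
  rw [Complex.norm_exp, re_quot, Complex.normSq_eq_norm_sq, hz]
  simp

theorem Bf_conj (z : ℂ) : Bf ((starRingEnd ℂ) z) = (starRingEnd ℂ) (Bf z) := by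
  unfold Bf
  rw [← Complex.exp_conj]
  simp

theorem Bf_ofReal (r : ℝ) : Bf (r : ℂ) = ((Real.exp ((r + 1) / (r - 1)) : ℝ) : ℂ) := by
  unfold Bf
  push_cast
  rfl

theorem differentiableAt_Bf {z : ℂ} (hz : z ≠ 1) : DifferentiableAt ℂ Bf z := by
  unfold Bf
  have : z - 1 ≠ 0 := sub_ne_zero.2 hz
  fun_prop (disch := assumption)

theorem measurable_Bf : Measurable Bf := by
  unfold Bf
  fun_prop

/-- the symbol -/
noncomputable def b (t : Cc) : ℂ := Bf (fourier 1 t)

theorem measurable_b : Measurable b :=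
  measurable_Bf.comp (fourier 1).continuous.measurable

theorem norm_fourier_one (n : ℤ) (t : Cc) : ‖fourier n t‖ = 1 := by
  rw [fourier_apply]
  exact Circle.norm_coe _

theorem norm_b (t : Cc) : ‖b t‖ = 1 := norm_Bf_eq (norm_fourier_one 1 t)

/-- circle averages as integrals over the additive circle -/
theorem integral_eq_circleAverage (f : ℂ → ℂ) :
    ∫ t : Cc, f (fourier 1 t) ∂hm = Real.circleAverage f 0 1 := by
  have h := fourierCoeff_eq_intervalIntegral (T := (1 : ℝ)) (fun t : Cc => f (fourier 1 t)) 0 0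
  rw [fourierCoeff] at h
  simp only [neg_zero, zero_add] at h
  have h0 : ∀ t : Cc, (fourier 0 t : ℂ) = 1 := fun t => fourier_zero
  simp only [h0, one_smul, div_one] at h
  rw [h, Real.circleAverage_def]
  have h1 : ∀ x : ℝ, f (fourier 1 (x : Cc)) = (fun θ => f (circleMap 0 1 θ)) (2 * π * x) := by
    intro x
    simp only
    congr 1
    rw [fourier_coe_apply, circleMap_zero]
    push_cast
    ring_nf
  simp_rw [h1]
  rw [intervalIntegral.integral_comp_mul_left (fun θ => f (circleMap 0 1 θ)) (by positivity)]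
  simp

/-- Cauchy's formula for `Bf` in the disc of radius `ρ < 1` -/
theorem cauchy_rho (ρ r : ℝ) (hρ0 : 0 ≤ ρ) (hρ : ρ < 1) (h0 : 0 ≤ r) (h1 : r < 1) (j : ℕ) :
    ∫ t : Cc, (fourier 1 t / (fourier 1 t - r)) * (Bf (ρ * fourier 1 t) * (fourier 1 t) ^ j) ∂hm =
      Bf (ρ * r) * r ^ j := by
  rw [integral_eq_circleAverage
    (fun z => (z / (z - r)) * (Bf (ρ * z) * z ^ j))]
  have hd : DiffContOnCl ℂ (fun z : ℂ => Bf (ρ * z) * z ^ j) (Metric.ball 0 |1|) := by
    have : ∀ z ∈ closure (Metric.ball (0 : ℂ) |1|),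
        DifferentiableAt ℂ (fun z : ℂ => Bf (ρ * z) * z ^ j) z := by
      intro z hz
      rw [closure_ball _ (by norm_num), mem_closedBall_zero_iff, abs_one] at hz
      have hne : (ρ : ℂ) * z ≠ 1 := by
        intro h
        have h2 := congrArg norm h
        rw [norm_mul, Complex.norm_real, norm_one, Real.norm_eq_abs, abs_of_nonneg hρ0] at h2
        nlinarith [norm_nonneg z]
      have h3 : DifferentiableAt ℂ (fun z : ℂ => Bf (ρ * z)) z :=
        (differentiableAt_Bf hne).comp z (by fun_prop)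
      exact h3.mul (by fun_prop)
    exact ⟨fun z hz => (this z (subset_closure hz)).differentiableWithinAt,
      fun z hz => (this z hz).continuousAt.continuousWithinAt⟩
  have hr : (r : ℂ) ∈ Metric.ball (0 : ℂ) |1| := by
    rw [mem_ball_zero_iff, abs_one, Complex.norm_real, Real.norm_eq_abs, abs_of_nonneg h0]
    exact h1
  have h := hd.circleAverage_smul_div hr
  simpa using h

theorem fourier_one_ne {t : Cc} (ht : t ≠ 0) : (fourier 1 t : ℂ) ≠ 1 := by
  intro h
  apply ht
  rw [fourier_one] at h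
  have h2 : toCircle t = toCircle (0 : Cc) := by
    rw [toCircle_zero]
    exact Circle.ext (by simpa using h)
  exact (injective_toCircle (by norm_num)) h2

theorem norm_quot_le {r : ℝ} (h0 : 0 ≤ r) (h1 : r < 1) (t : Cc) :
    ‖(fourier 1 t / (fourier 1 t - r) : ℂ)‖ ≤ (1 - r)⁻¹ := by
  rw [norm_div, norm_fourier_one, one_div]
  apply inv_anti₀ (by linarith)
  have := norm_sub_norm_le (fourier 1 t : ℂ) (r : ℂ)
  rw [norm_fourier_one, Complex.norm_real, Real.norm_eq_abs, abs_of_nonneg h0] at this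
  exact this

/-- the reproducing property of the boundary function -/
theorem rep (r : ℝ) (h0 : 0 ≤ r) (h1 : r < 1) (j : ℕ) :
    ∫ t : Cc, (fourier 1 t / (fourier 1 t - r)) * (b t * (fourier 1 t) ^ j) ∂hm =
      Bf r * r ^ j := by
  set ρ : ℕ → ℝ := fun n => 1 - 1 / ((n : ℝ) + 1) with hρ
  have hρlim : Tendsto ρ atTop (𝓝 1) := by
    have := tendsto_one_div_add_atTop_nhds_zero_nat (𝕜 := ℝ)
    rw [hρ]
    simpa using this.const_sub 1
  have hρ0 : ∀ n, 0 ≤ ρ n := by
    intro n
    rw [hρ]
    simp only [sub_nonneg]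
    rw [div_le_one (by positivity)]
    have : (0 : ℝ) ≤ n := Nat.cast_nonneg n
    linarith
  have hρ1 : ∀ n, ρ n < 1 := by
    intro n
    rw [hρ]
    simp only [sub_lt_self_iff]
    positivity
  have hcl : Tendsto (fun n => ((ρ n : ℝ) : ℂ)) atTop (𝓝 1) := by
    have := (Complex.continuous_ofReal.tendsto (1 : ℝ)).comp hρlim
    simpa [Function.comp_def] using this
  have e1 : Tendsto (fun n => ∫ t : Cc, (fourier 1 t / (fourier 1 t - r)) *
      (Bf (ρ n * fourier 1 t) * (fourier 1 t) ^ j) ∂hm) atTop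
      (𝓝 (∫ t : Cc, (fourier 1 t / (fourier 1 t - r)) * (b t * (fourier 1 t) ^ j) ∂hm)) := by
    apply tendsto_integral_of_dominated_convergence (fun _ => (1 - r)⁻¹)
    · intro n
      have hmeas : Measurable fun z : ℂ => (z / (z - r)) * (Bf (ρ n * z) * z ^ j) := by
        have := measurable_Bf.comp (measurable_const_mul ((ρ n : ℝ) : ℂ))
        exact (by fun_prop : Measurable fun z : ℂ => z / (z - r)).mul
          (this.mul (by fun_prop))
      exact (hmeas.comp (fourier 1).continuous.measurable).aestronglyMeasurable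
    · exact integrable_const _
    · intro n
      refine Eventually.of_forall fun t => ?_
      rw [norm_mul, norm_mul, norm_pow, norm_fourier_one, one_pow, mul_one]
      have h2 : ‖Bf (ρ n * fourier 1 t)‖ ≤ 1 := by
        apply norm_Bf_le
        rw [norm_mul, norm_fourier_one, Complex.norm_real, Real.norm_eq_abs,
          abs_of_nonneg (hρ0 n), mul_one]
        exact (hρ1 n).le
      calc _ ≤ (1 - r)⁻¹ * 1 := mul_le_mul (norm_quot_le h0 h1 t) h2 (norm_nonneg _)
            (inv_nonneg.2 (by linarith))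
        _ = _ := mul_one _
    · have hne : ∀ᵐ t : Cc ∂hm, t ≠ 0 := by
        rw [ae_iff]
        simp
      filter_upwards [hne] with t ht
      apply Tendsto.const_mul
      apply Tendsto.mul_const
      have h3 : ContinuousAt Bf (fourier 1 t) := (differentiableAt_Bf (fourier_one_ne ht)).continuousAt
      have h4 : Tendsto (fun n => ((ρ n : ℝ) : ℂ) * fourier 1 t) atTop (𝓝 (fourier 1 t)) := by
        have := hcl.mul_const (fourier 1 t : ℂ)
        simpa using this
      exact h3.tendsto.comp h4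
  have e2 : Tendsto (fun n => ∫ t : Cc, (fourier 1 t / (fourier 1 t - r)) *
      (Bf (ρ n * fourier 1 t) * (fourier 1 t) ^ j) ∂hm) atTop (𝓝 (Bf r * r ^ j)) := by
    have h5 : ∀ n, ∫ t : Cc, (fourier 1 t / (fourier 1 t - r)) *
      (Bf (ρ n * fourier 1 t) * (fourier 1 t) ^ j) ∂hm = Bf (ρ n * r) * r ^ j :=
      fun n => cauchy_rho (ρ n) r (hρ0 n) (hρ1 n) h0 h1 j
    simp_rw [h5]
    apply Tendsto.mul_const
    have hne : (r : ℂ) ≠ 1 := by
      intro h
      have : r = 1 := by exact_mod_cast h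
      linarith
    have h3 : ContinuousAt Bf (r : ℂ) := (differentiableAt_Bf hne).continuousAt
    have h4 : Tendsto (fun n => ((ρ n : ℝ) : ℂ) * r) atTop (𝓝 (r : ℂ)) := by
      have := hcl.mul_const (r : ℂ)
      simpa using this
    exact h3.tendsto.comp h4
  exact tendsto_nhds_unique e1 e2

end Pool.Agent.H588_FS
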