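import Pool.Agent.H588_FS.Cpt

set_option autoImplicit false
open Filter Topology
open scoped ENNReal

namespace Pool.Agent.H588_FS

/-- the vector `(r ^ k)` -/
noncomputable def v (r : ℝ) (h0 : 0 ≤ r) (h1 : r < 1) : ell :=
  ⟨fun k => ((r ^ k : ℝ) : ℂ), by
    apply memℓp_gen
    have h : (fun i : ℕ => ‖((r ^ i : ℝ) : ℂ)‖ ^ (2 : ℝ≥0∞).toReal) = fun i => (r ^ 2) ^ i := by
      funext i
      rw [Complex.norm_real, Real.norm_eq_abs, abs_of_nonneg (pow_nonneg h0 i)]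
      simp only [ENNReal.toReal_ofNat, Real.rpow_ofNat]
      rw [← pow_mul, ← pow_mul, mul_comm]
    rw [h]
    apply summable_geometric_of_lt_one (by positivity)
    nlinarith⟩

variable {r : ℝ} (h0 : 0 ≤ r) (h1 : r < 1)

theorem v_apply (k : ℕ) : (v r h0 h1) k = ((r ^ k : ℝ) : ℂ) := rfl

theorem norm_v_apply_sq (k : ℕ) : ‖(v r h0 h1) k‖ ^ 2 = (r ^ 2) ^ k := by
  rw [v_apply, Complex.norm_real, Real.norm_eq_abs, abs_of_nonneg (pow_nonneg h0 k), ← pow_mul,
    ← pow_mul, mul_comm]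

theorem nsq_v : ‖v r h0 h1‖ ^ 2 = (1 - r ^ 2)⁻¹ := by
  rw [nsq]
  simp_rw [norm_v_apply_sq h0 h1]
  exact tsum_geometric_of_lt_one (by positivity) (by nlinarith)

theorem nsq_v_mul : (1 - r ^ 2) * ‖v r h0 h1‖ ^ 2 = 1 := by
  rw [nsq_v]
  apply mul_inv_cancel₀
  nlinarith

theorem nsq_sub_Pn (x : ell) (n : ℕ) : ‖x - Pn n x‖ ^ 2 = ‖x‖ ^ 2 - ‖Pn n x‖ ^ 2 := by
  have h : (inner ℂ x (Pn n x) : ℂ) = inner ℂ (Pn n x) (Pn n x) := by
    conv_lhs => rw [← Pn_Pn]
    rw [← inner_Pn]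
  have h2 := norm_sub_sq (𝕜 := ℂ) x (Pn n x)
  rw [h, inner_self_eq_norm_sq] at h2
  linarith

theorem norm_sub_Pn_v (n : ℕ) : ‖v r h0 h1 - Pn n (v r h0 h1)‖ = r ^ (n + 1) * ‖v r h0 h1‖ := by
  have h : ‖v r h0 h1 - Pn n (v r h0 h1)‖ ^ 2 = (r ^ (n + 1) * ‖v r h0 h1‖) ^ 2 := by
    rw [nsq_sub_Pn, nsq_Pn, mul_pow, nsq_v]
    simp_rw [norm_v_apply_sq h0 h1]
    have hr : r ^ 2 ≠ 1 := by nlinarith
    rw [geom_sum_eq hr]
    have h3 : 1 - r ^ 2 ≠ 0 := fun h => hr (by linarith)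
    have h4 : r ^ 2 - 1 ≠ 0 := fun h => hr (by linarith)
    field_simp
    ring
  exact (pow_left_inj₀ (norm_nonneg _) (by positivity) two_ne_zero).1 h

theorem inner_Wn_v (n : ℕ) : (inner ℂ (Wn n (v r h0 h1)) (v r h0 h1) : ℂ) =
    (((n + 1 : ℕ) * r ^ n : ℝ) : ℂ) := by
  rw [lp.inner_eq_tsum, tsum_eq_sum (s := Finset.range (n + 1))]
  · have h : ∀ j ∈ Finset.range (n + 1),
        (inner ℂ ((Wn n (v r h0 h1)) j) ((v r h0 h1) j) : ℂ) = ((r ^ n : ℝ) : ℂ) := by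
      intro j hj
      have hj2 := Nat.lt_succ_iff.1 (Finset.mem_range.1 hj)
      rw [Wn_apply, if_pos hj2, v_apply, v_apply, RCLike.inner_apply, Complex.conj_ofReal,
        ← Complex.ofReal_mul, ← pow_add]
      congr 3
      omega
    rw [Finset.sum_congr rfl h, Finset.sum_const, Finset.card_range]
    push_cast
    simp
  · intro j hj
    rw [Wn_apply, if_neg (fun h => hj (Finset.mem_range.2 (Nat.lt_succ_iff.2 h)))]
    simp

section Main

variable (T : ell →L[ℂ] ell)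

/-- the first factor -/
noncomputable def R (n : ℕ) : ell →L[ℂ] ell :=
  Pn n - (Pn n * T * Pn n) * (Pn n * ContinuousLinearMap.adjoint T * Pn n)

/-- the second factor -/
noncomputable def S (n : ℕ) : ell →L[ℂ] ell :=
  Pn n - (Pn n * ContinuousLinearMap.adjoint T * Pn n) * (Pn n * T * Pn n)

theorem R_apply (n : ℕ) (x : ell) :
    R T n x = Pn n x - Pn n (T (Pn n (ContinuousLinearMap.adjoint T (Pn n x)))) := by
  show Pn n x - Pn n (T (Pn n (Pn n (ContinuousLinearMap.adjoint T (Pn n x))))) = _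
  rw [Pn_Pn]

theorem S_apply (n : ℕ) (x : ell) :
    S T n x = Pn n x - Pn n (ContinuousLinearMap.adjoint T (Pn n (T (Pn n x)))) := by
  show Pn n x - Pn n (ContinuousLinearMap.adjoint T (Pn n (Pn n (T (Pn n x))))) = _
  rw [Pn_Pn]

theorem inner_R (n : ℕ) (x y : ell) : (inner ℂ (R T n x) y : ℂ) = inner ℂ x (R T n y) := by
  rw [R_apply, R_apply, inner_sub_left, inner_sub_right, inner_Pn, inner_Pn,
    ← ContinuousLinearMap.adjoint_inner_right, inner_Pn, ContinuousLinearMap.adjoint_inner_left,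
    inner_Pn]

variable (hT : ∀ x, ‖T x‖ = ‖x‖)

include hT in
theorem norm_adj_le (x : ell) : ‖ContinuousLinearMap.adjoint T x‖ ≤ ‖x‖ := by
  refine ((ContinuousLinearMap.adjoint T).le_opNorm x).trans ?_
  rw [LinearIsometryEquiv.norm_map]
  have : ‖T‖ ≤ 1 := T.opNorm_le_bound zero_le_one (fun x => by rw [hT, one_mul])
  exact mul_le_of_le_one_left (norm_nonneg _) this

include hT in
theorem adj_T (x : ell) : ContinuousLinearMap.adjoint T (T x) = x := by
  have h := (ContinuousLinearMap.norm_map_iff_adjoint_comp_self T).1 hT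
  exact congrArg (fun A : ell →L[ℂ] ell => A x) h

include hT in
theorem norm_R_le (n : ℕ) (x : ell) : ‖R T n x‖ ≤ 2 * ‖x‖ := by
  rw [R_apply]
  have h2 : ‖Pn n (T (Pn n (ContinuousLinearMap.adjoint T (Pn n x))))‖ ≤ ‖x‖ := by
    refine (norm_Pn_le _ _).trans ?_
    rw [hT]
    refine (norm_Pn_le _ _).trans ?_
    exact (norm_adj_le T hT _).trans (norm_Pn_le _ _)
  refine (norm_sub_le _ _).trans ?_
  linarith [norm_Pn_le n x]

include hT in
theorem norm_S_le (n : ℕ) (x : ell) : ‖S T n x‖ ≤ 2 * ‖x‖ := by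
  rw [S_apply]
  have h2 : ‖Pn n (ContinuousLinearMap.adjoint T (Pn n (T (Pn n x))))‖ ≤ ‖x‖ := by
    refine (norm_Pn_le _ _).trans ?_
    refine (norm_adj_le T hT _).trans ?_
    refine (norm_Pn_le _ _).trans ?_
    rw [hT]
    exact norm_Pn_le _ _
  refine (norm_sub_le _ _).trans ?_
  linarith [norm_Pn_le n x]

include hT in
theorem tendsto_S (x : ell) : Tendsto (fun n => S T n x) atTop (𝓝 0) := by
  have h1 := tendsto_Pn x
  have h2 : Tendsto (fun n => Pn n (T (Pn n x))) atTop (𝓝 (T x)) :=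
    tendsto_Pn_of_tendsto ((T.continuous.tendsto x).comp h1)
  have h3 : Tendsto (fun n => Pn n (ContinuousLinearMap.adjoint T (Pn n (T (Pn n x))))) atTop
      (𝓝 (ContinuousLinearMap.adjoint T (T x))) :=
    tendsto_Pn_of_tendsto (((ContinuousLinearMap.adjoint T).continuous.tendsto _).comp h2)
  rw [adj_T T hT] at h3
  have h4 := h1.sub h3
  rw [sub_self] at h4
  refine h4.congr fun n => ?_
  rw [S_apply]

theorem tendsto_R (x : ell) : Tendsto (fun n => R T n x) atTop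
    (𝓝 (x - T (ContinuousLinearMap.adjoint T x))) := by
  have h1 := tendsto_Pn x
  have h2 : Tendsto (fun n => Pn n (ContinuousLinearMap.adjoint T (Pn n x))) atTop
      (𝓝 (ContinuousLinearMap.adjoint T x)) :=
    tendsto_Pn_of_tendsto (((ContinuousLinearMap.adjoint T).continuous.tendsto x).comp h1)
  have h3 : Tendsto (fun n => Pn n (T (Pn n (ContinuousLinearMap.adjoint T (Pn n x))))) atTop
      (𝓝 (T (ContinuousLinearMap.adjoint T x))) :=
    tendsto_Pn_of_tendsto ((T.continuous.tendsto _).comp h2)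
  refine (h1.sub h3).congr fun n => ?_
  rw [R_apply]

include hT in
theorem tendsto_RS (x : ell) : Tendsto (fun n => (R T n * S T n) x) atTop (𝓝 0) := by
  have h1 : Tendsto (fun n => 2 * ‖S T n x‖) atTop (𝓝 0) := by
    simpa using ((tendsto_S T hT x).norm).const_mul 2
  exact squeeze_zero_norm (fun n => norm_R_le T hT n (S T n x)) h1

include hT in
theorem tendsto_SR (x : ell) : Tendsto (fun n => S T n (R T n x)) atTop (𝓝 0) := by
  set y := x - T (ContinuousLinearMap.adjoint T x) with hy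
  have h1 : Tendsto (fun n => 2 * ‖R T n x - y‖) atTop (𝓝 0) := by
    have h := (((tendsto_R T x).sub_const y).norm).const_mul 2
    rw [← hy, sub_self, norm_zero, mul_zero] at h
    exact h
  have h2 : Tendsto (fun n => S T n (R T n x - y)) atTop (𝓝 0) :=
    squeeze_zero_norm (fun n => norm_S_le T hT n _) h1
  have h3 := h2.add (tendsto_S T hT y)
  rw [add_zero] at h3
  refine h3.congr fun n => ?_
  rw [map_sub, sub_add_cancel]

variable (hW : ∀ n x, Wn n (T (Wn n x)) = Pn n (ContinuousLinearMap.adjoint T (Pn n x)))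

include hW in
theorem hW' (n : ℕ) (x : ell) :
    Wn n (ContinuousLinearMap.adjoint T (Wn n x)) = Pn n (T (Pn n x)) := by
  apply ext_inner_right ℂ
  intro y
  rw [inner_Wn, ContinuousLinearMap.adjoint_inner_left, inner_Wn, hW, inner_Pn,
    ← ContinuousLinearMap.adjoint_inner_right, inner_Pn]

include hW in
theorem Wn_R (n : ℕ) (x : ell) : Wn n (R T n (Wn n x)) = S T n x := by
  rw [R_apply, S_apply, map_sub, Wn_Pn, Wn_Wn, Wn_Pn, Pn_Wn]
  congr 1
  have h1 : Pn n (ContinuousLinearMap.adjoint T (Wn n x)) =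
      Wn n (Wn n (ContinuousLinearMap.adjoint T (Wn n x))) := by rw [Wn_Wn]
  rw [h1, hW' T hW, hW, Pn_Pn]

include hW in
theorem Wn_S (n : ℕ) (x : ell) : Wn n (S T n (Wn n x)) = R T n x := by
  rw [R_apply, S_apply, map_sub, Wn_Pn, Wn_Wn, Wn_Pn, Pn_Wn]
  congr 1
  have h1 : Pn n (T (Wn n x)) = Wn n (Wn n (T (Wn n x))) := by rw [Wn_Wn]
  rw [h1, hW, hW' T hW, Pn_Pn]

theorem R_Pn (n : ℕ) (x : ell) : R T n (Pn n x) = R T n x := by
  rw [R_apply, R_apply, Pn_Pn]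

include hW in
theorem Wn_RS (n : ℕ) (x : ell) : (Wn n * (R T n * S T n) * Wn n) x = S T n (R T n x) := by
  show Wn n (R T n (S T n (Wn n x))) = _
  rw [← R_Pn, ← Wn_Wn, Wn_S T hW, Wn_R T hW]

include hT hW in
/-- the lower bound for the norm -/
theorem lower (β : ℝ) (hβ : 0 ≤ β)
    (heig : ContinuousLinearMap.adjoint T (v r h0 h1) = (β : ℂ) • v r h0 h1) (n : ℕ) :
    (n + 1 : ℕ) * r ^ n * (1 - r ^ 2) ≤
      ‖R T n * S T n‖ + 2 * (β + r ^ (n + 1)) + (β + r ^ (n + 1)) ^ 2 := by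
  set x := v r h0 h1 with hx
  set ε := β + r ^ (n + 1) with hε
  have hε0 : 0 ≤ ε := by positivity
  set z := Pn n (T (Pn n (ContinuousLinearMap.adjoint T (Pn n x)))) with hz
  have hz1 : ‖z‖ ≤ ε * ‖x‖ := by
    rw [hz]
    refine (norm_Pn_le _ _).trans ?_
    rw [hT]
    refine (norm_Pn_le _ _).trans ?_
    have h2 : ContinuousLinearMap.adjoint T (Pn n x) = (β : ℂ) • x -
        ContinuousLinearMap.adjoint T (x - Pn n x) := by
      rw [map_sub, heig]; abel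
    rw [h2]
    refine (norm_sub_le _ _).trans ?_
    have h3 := norm_adj_le T hT (x - Pn n x)
    rw [hx, norm_sub_Pn_v h0 h1, ← hx] at h3
    rw [norm_smul, Complex.norm_real, Real.norm_eq_abs, abs_of_nonneg hβ, hε]
    linarith
  have hR : R T n x = Pn n x - z := R_apply T n x
  have hSW : S T n (Wn n x) = Wn n (R T n x) := by
    rw [← Wn_R T hW, Wn_Wn, R_Pn]
  have h5 : (inner ℂ ((R T n * S T n) (Wn n x)) x : ℂ) =
      (((n + 1 : ℕ) * r ^ n : ℝ) : ℂ) - inner ℂ (Wn n x) z - inner ℂ (Wn n z) (Pn n x) +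
        inner ℂ (Wn n z) z := by
    show (inner ℂ (R T n (S T n (Wn n x))) x : ℂ) = _
    rw [inner_R, hSW, hR, map_sub, Wn_Pn, inner_sub_left, inner_sub_right, inner_sub_right,
      ← inner_Pn, Pn_Wn, hx, inner_Wn_v h0 h1]
    ring
  have h6 : (((n + 1 : ℕ) * r ^ n : ℝ) : ℂ) = inner ℂ ((R T n * S T n) (Wn n x)) x +
      inner ℂ (Wn n x) z + inner ℂ (Wn n z) (Pn n x) - inner ℂ (Wn n z) z := by
    rw [h5]; ring
  have h7 : (n + 1 : ℕ) * r ^ n ≤ ‖R T n * S T n‖ * ‖x‖ ^ 2 + 2 * ε * ‖x‖ ^ 2 +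
      ε ^ 2 * ‖x‖ ^ 2 := by
    have h8 : ‖(((n + 1 : ℕ) * r ^ n : ℝ) : ℂ)‖ = (n + 1 : ℕ) * r ^ n := by
      rw [Complex.norm_real, Real.norm_eq_abs, abs_of_nonneg (by positivity)]
    rw [← h8, h6]
    have a1 : ‖(inner ℂ ((R T n * S T n) (Wn n x)) x : ℂ)‖ ≤ ‖R T n * S T n‖ * ‖x‖ ^ 2 := by
      refine (norm_inner_le_norm _ _).trans ?_
      have := (R T n * S T n).le_opNorm (Wn n x)
      have h9 := norm_Wn_le n x
      calc _ ≤ (‖R T n * S T n‖ * ‖x‖) * ‖x‖ := by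
            apply mul_le_mul_of_nonneg_right _ (norm_nonneg _)
            exact this.trans (mul_le_mul_of_nonneg_left h9 (norm_nonneg _))
        _ = _ := by ring
    have a2 : ‖(inner ℂ (Wn n x) z : ℂ)‖ ≤ ε * ‖x‖ ^ 2 := by
      refine (norm_inner_le_norm _ _).trans ?_
      calc _ ≤ ‖x‖ * (ε * ‖x‖) := mul_le_mul (norm_Wn_le n x) hz1 (norm_nonneg _) (norm_nonneg _)
        _ = _ := by ring
    have a3 : ‖(inner ℂ (Wn n z) (Pn n x) : ℂ)‖ ≤ ε * ‖x‖ ^ 2 := by
      refine (norm_inner_le_norm _ _).trans ?_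
      calc _ ≤ (ε * ‖x‖) * ‖x‖ :=
            mul_le_mul ((norm_Wn_le n z).trans hz1) (norm_Pn_le n x) (norm_nonneg _)
              (by positivity)
        _ = _ := by ring
    have a4 : ‖(inner ℂ (Wn n z) z : ℂ)‖ ≤ ε ^ 2 * ‖x‖ ^ 2 := by
      refine (norm_inner_le_norm _ _).trans ?_
      calc _ ≤ (ε * ‖x‖) * (ε * ‖x‖) :=
            mul_le_mul ((norm_Wn_le n z).trans hz1) hz1 (norm_nonneg _) (by positivity)
        _ = _ := by ring
    calc _ ≤ ‖(inner ℂ ((R T n * S T n) (Wn n x)) x : ℂ)‖ + ‖(inner ℂ (Wn n x) z : ℂ)‖ +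
          ‖(inner ℂ (Wn n z) (Pn n x) : ℂ)‖ + ‖(inner ℂ (Wn n z) z : ℂ)‖ :=
          (norm_sub_le _ _).trans (add_le_add_left ((norm_add_le _ _).trans
            (add_le_add_left (norm_add_le _ _) _)) _)
      _ ≤ _ := by linarith
  have hr : 0 ≤ 1 - r ^ 2 := by nlinarith
  have h10 := mul_le_mul_of_nonneg_right h7 hr
  have h11 := nsq_v_mul h0 h1
  rw [← hx] at h11
  calc _ ≤ _ := h10
    _ = (‖R T n * S T n‖ + 2 * ε + ε ^ 2) * ((1 - r ^ 2) * ‖x‖ ^ 2) := by ring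
    _ = _ := by rw [h11, mul_one]

end Main

end Pool.Agent.H588_FS
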