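import Pool.Agent.H588_FS.Low
import Pool.Agent.H588_FS.Inner
import Pool.Agent.H588_SG.MulOp

set_option autoImplicit false
open Filter Topology MeasureTheory AddCircle
open scoped ENNReal Real

namespace Pool.Agent.H588_FS

open Pool.Agent.H588_SG (mulOp coeFn_mulOp norm_sq_eq)

/-- the space `L²` of the circle -/
noncomputable abbrev L2T : Type := Lp ℂ 2 hm

theorem orth : Orthonormal ℂ (fun k : ℕ => (fourierLp 2 (k : ℤ) : L2T)) :=
  orthonormal_fourier.comp _ Nat.cast_injective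

/-- the embedding of `ℓ²(ℕ)` in `L²` -/
noncomputable def E : ell →ₗᵢ[ℂ] L2T := orth.orthogonalFamily.linearIsometry

theorem E_e (k : ℕ) : E (e k) = fourierLp 2 (k : ℤ) := by
  unfold E e
  rw [OrthogonalFamily.linearIsometry_apply_single]
  simp

/-- the Toeplitz operator -/
noncomputable def Tp (a : Cc → ℂ) (ha : Measurable a) (C : ℝ) (hC : ∀ t, ‖a t‖ ≤ C) :
    ell →L[ℂ] ell :=
  (ContinuousLinearMap.adjoint E.toContinuousLinearMap).comp
    ((mulOp (μ := hm) a ha C hC).comp E.toContinuousLinearMap)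

theorem Tp_apply (a : Cc → ℂ) (ha : Measurable a) (C : ℝ) (hC : ∀ t, ‖a t‖ ≤ C) (y : ell) :
    Tp a ha C hC y = (ContinuousLinearMap.adjoint E.toContinuousLinearMap)
      (mulOp (μ := hm) a ha C hC (E y)) := rfl

theorem inner_Eadj (x : ell) (f : L2T) :
    (inner ℂ x ((ContinuousLinearMap.adjoint E.toContinuousLinearMap) f) : ℂ) =
      inner ℂ (E x) f := by
  rw [ContinuousLinearMap.adjoint_inner_right]
  rfl

theorem inner_Eadj' (x : ell) (f : L2T) :
    (inner ℂ ((ContinuousLinearMap.adjoint E.toContinuousLinearMap) f) x : ℂ) =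
      inner ℂ f (E x) := by
  rw [ContinuousLinearMap.adjoint_inner_left]
  rfl

theorem inner_Tp (a : Cc → ℂ) (ha : Measurable a) (C : ℝ) (hC : ∀ t, ‖a t‖ ≤ C) (x y : ell) :
    (inner ℂ x (Tp a ha C hC y) : ℂ) = inner ℂ (E x) (mulOp (μ := hm) a ha C hC (E y)) := by
  rw [Tp_apply, inner_Eadj]

theorem inner_Tp' (a : Cc → ℂ) (ha : Measurable a) (C : ℝ) (hC : ∀ t, ‖a t‖ ≤ C) (x y : ell) :
    (inner ℂ (Tp a ha C hC x) y : ℂ) = inner ℂ (mulOp (μ := hm) a ha C hC (E x)) (E y) := by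
  rw [Tp_apply, inner_Eadj']

theorem inner_fourier (a : Cc → ℂ) (ha : Measurable a) (C : ℝ) (hC : ∀ t, ‖a t‖ ≤ C) (j k : ℤ) :
    (inner ℂ (fourierLp 2 j : L2T) (mulOp (μ := hm) a ha C hC (fourierLp 2 k)) : ℂ) =
      fourierCoeff a (j - k) := by
  rw [L2.inner_def, fourierCoeff]
  apply integral_congr_ae
  filter_upwards [coeFn_fourierLp (T := 1) 2 j, coeFn_fourierLp (T := 1) 2 k,
    coeFn_mulOp (μ := hm) a ha C hC (fourierLp 2 k)] with t h1 h2 h3
  rw [h1, h3, h2, RCLike.inner_apply, neg_sub, sub_eq_add_neg, fourier_add, smul_eq_mul,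
    fourier_neg]
  ring

theorem Tp_entry (a : Cc → ℂ) (ha : Measurable a) (C : ℝ) (hC : ∀ t, ‖a t‖ ≤ C) (j k : ℕ) :
    (Tp a ha C hC (e k)) j = fourierCoeff a ((j : ℤ) - (k : ℤ)) := by
  rw [← inner_e_left, inner_Tp, E_e, E_e, inner_fourier]

theorem fourier_natCast (m : ℕ) (t : Cc) : (fourier (m : ℤ) t : ℂ) = (fourier 1 t) ^ m := by
  induction m with
  | zero => simp
  | succ m ih =>
    rw [Nat.cast_succ, fourier_add, ih, pow_succ]

theorem coeff_neg (m : ℕ) (hm1 : m ≠ 0) : fourierCoeff b (-(m : ℤ)) = 0 := by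
  have h := rep 0 le_rfl zero_lt_one m
  have h2 : ∀ t : Cc, (fourier 1 t / (fourier 1 t - ((0 : ℝ) : ℂ))) * (b t * (fourier 1 t) ^ m) =
      fourier (- -(m : ℤ)) t • b t := by
    intro t
    rw [neg_neg, fourier_natCast, smul_eq_mul, Complex.ofReal_zero, sub_zero, div_self, one_mul,
      mul_comm]
    intro h3
    have := norm_fourier_one 1 t
    rw [h3, norm_zero] at this
    exact zero_ne_one this
  simp_rw [h2] at h
  rw [fourierCoeff, h]
  simp [hm1]

/-- the operator of the counterexample -/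
noncomputable def T : ell →L[ℂ] ell := Tp b measurable_b 1 (fun t => (norm_b t).le)

/-- multiplication by the inner function -/
noncomputable def Mb : L2T →L[ℂ] L2T := mulOp (μ := hm) b measurable_b 1 (fun t => (norm_b t).le)

theorem norm_Mb (f : L2T) : ‖Mb f‖ = ‖f‖ := by
  have h : ‖Mb f‖ ^ 2 = ‖f‖ ^ 2 := by
    rw [norm_sq_eq, norm_sq_eq]
    apply integral_congr_ae
    filter_upwards [coeFn_mulOp (μ := hm) b measurable_b 1 (fun t => (norm_b t).le) f] with t ht
    show ‖(Mb f : Cc → ℂ) t‖ ^ 2 = _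
    unfold Mb
    rw [ht, norm_mul, norm_b, one_mul]
  exact (pow_left_inj₀ (norm_nonneg _) (norm_nonneg _) two_ne_zero).1 h

theorem inner_neg (m : ℕ) (hm1 : m ≠ 0) (x : ell) :
    (inner ℂ (fourierLp 2 (-(m : ℤ)) : L2T) (Mb (E x)) : ℂ) = 0 := by
  have h : ((innerSL ℂ (fourierLp 2 (-(m : ℤ)) : L2T)).comp
      (Mb.comp E.toContinuousLinearMap) : ell →L[ℂ] ℂ) = 0 := by
    apply lp.ext_continuousLinearMap (by norm_num)
    intro k
    ext1
    show (inner ℂ (fourierLp 2 (-(m : ℤ)) : L2T) (Mb (E (e k))) : ℂ) = 0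
    rw [E_e]
    unfold Mb
    rw [inner_fourier]
    have : -(m : ℤ) - (k : ℤ) = -((m + k : ℕ) : ℤ) := by push_cast; ring
    rw [this]
    exact coeff_neg _ (by omega)
  exact congrArg (fun A : ell →L[ℂ] ℂ => A x) h

theorem parseval (f : L2T) : ‖f‖ ^ 2 = ∑' m : ℤ, ‖(inner ℂ (fourierLp 2 m : L2T) f : ℂ)‖ ^ 2 := by
  have h := lp.norm_rpow_eq_tsum (p := 2) (by norm_num) ((fourierBasis (T := (1 : ℝ))).repr f)
  rw [LinearIsometryEquiv.norm_map] at h
  have h2 : ‖f‖ ^ 2 = ∑' m : ℤ, ‖((fourierBasis (T := (1 : ℝ))).repr f) m‖ ^ 2 := by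
    simpa using h
  rw [h2]
  congr 1
  funext m
  rw [HilbertBasis.repr_apply_apply, coe_fourierBasis]

theorem hT (x : ell) : ‖T x‖ = ‖x‖ := by
  have h1 : ‖T x‖ ^ 2 = ‖Mb (E x)‖ ^ 2 := by
    rw [nsq, parseval]
    have hc : ∀ j : ℕ, (T x) j = inner ℂ (fourierLp 2 (j : ℤ) : L2T) (Mb (E x)) := by
      intro j
      rw [← inner_e_left]
      unfold T Mb
      rw [inner_Tp, E_e]
    simp_rw [hc]
    apply Function.Injective.tsum_eq (g := fun j : ℕ => (j : ℤ))
      (f := fun m : ℤ => ‖(inner ℂ (fourierLp 2 m : L2T) (Mb (E x)) : ℂ)‖ ^ 2) Nat.cast_injective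
    intro m hm1
    rw [Function.mem_support] at hm1
    by_contra hneg
    apply hm1
    obtain ⟨n, hn⟩ : ∃ n : ℕ, m = -(n : ℤ) := by
      refine ⟨(-m).toNat, ?_⟩
      have : ¬ (0 ≤ m) := fun h => hneg ⟨m.toNat, Int.toNat_of_nonneg h⟩
      rw [Int.toNat_of_nonneg (by omega)]
      ring
    have hn0 : n ≠ 0 := by
      rintro rfl
      exact hneg ⟨0, by simp [hn]⟩
    simp only [hn]
    rw [inner_neg n hn0]
    simp
  have h2 : ‖T x‖ ^ 2 = ‖x‖ ^ 2 := by
    rw [h1, norm_Mb, LinearIsometry.norm_map]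
  exact (pow_left_inj₀ (norm_nonneg _) (norm_nonneg _) two_ne_zero).1 h2

theorem b_neg (t : Cc) : b (-t) = (starRingEnd ℂ) (b t) := by
  unfold b
  rw [← Bf_conj]
  congr 1
  rw [← fourier_neg]
  rw [fourier_apply, fourier_apply]
  simp

theorem coeff_real (m : ℤ) : (starRingEnd ℂ) (fourierCoeff b m) = fourierCoeff b m := by
  rw [fourierCoeff, ← integral_conj]
  rw [← integral_neg_eq_self (μ := hm)]
  apply integral_congr_ae
  refine Eventually.of_forall fun t => ?_
  simp only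
  rw [smul_eq_mul, smul_eq_mul, map_mul, b_neg, Complex.conj_conj]
  congr 1
  rw [fourier_apply, fourier_apply]
  rw [smul_neg, toCircle_neg, Circle.coe_inv_eq_conj, Complex.conj_conj]

theorem T_entry (j k : ℕ) : (T (e k)) j = fourierCoeff b ((j : ℤ) - (k : ℤ)) :=
  Tp_entry _ _ _ _ _ _

theorem Tadj_entry (j k : ℕ) :
    (ContinuousLinearMap.adjoint T (e k)) j = fourierCoeff b ((k : ℤ) - (j : ℤ)) := by
  rw [← inner_e_left, ContinuousLinearMap.adjoint_inner_right, inner_e_right, T_entry, coeff_real]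

theorem Wn_e (n k : ℕ) : Wn n (e k) = if k ≤ n then e (n - k) else 0 := by
  apply lp.ext; funext j
  rw [Wn_apply, e_apply]
  by_cases hk : k ≤ n
  · rw [if_pos hk, e_apply]
    by_cases hj : j ≤ n
    · rw [if_pos hj]
      by_cases h : n - j = k
      · rw [if_pos h, if_pos (by omega)]
      · rw [if_neg h, if_neg (by omega)]
    · rw [if_neg hj, if_neg (by omega)]
  · rw [if_neg hk, lp.coeFn_zero, Pi.zero_apply]
    by_cases hj : j ≤ n
    · rw [if_pos hj, if_neg (by omega)]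
    · rw [if_neg hj]

theorem Pn_e (n k : ℕ) : Pn n (e k) = if k ≤ n then e k else 0 := by
  apply lp.ext; funext j
  rw [Pn_apply, e_apply]
  by_cases hk : k ≤ n
  · rw [if_pos hk, e_apply]
    by_cases hj : j ≤ n
    · rw [if_pos hj]
    · rw [if_neg hj, if_neg (by omega)]
  · rw [if_neg hk, lp.coeFn_zero, Pi.zero_apply]
    by_cases hj : j ≤ n
    · rw [if_pos hj, if_neg (by omega)]
    · rw [if_neg hj]

theorem hW (n : ℕ) (x : ell) : Wn n (T (Wn n x)) = Pn n (ContinuousLinearMap.adjoint T (Pn n x)) := by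
  have h : (Wn n).comp (T.comp (Wn n)) =
      (Pn n).comp ((ContinuousLinearMap.adjoint T).comp (Pn n)) := by
    apply ext_e
    intro k
    show Wn n (T (Wn n (e k))) = Pn n (ContinuousLinearMap.adjoint T (Pn n (e k)))
    rw [Wn_e, Pn_e]
    by_cases hk : k ≤ n
    · rw [if_pos hk, if_pos hk]
      apply lp.ext; funext j
      rw [Wn_apply, Pn_apply]
      by_cases hj : j ≤ n
      · rw [if_pos hj, if_pos hj, T_entry, Tadj_entry]
        congr 1
        omega
      · rw [if_neg hj, if_neg hj]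
    · rw [if_neg hk, if_neg hk]
      simp
  exact congrArg (fun A : ell →L[ℂ] ell => A x) h

end Pool.Agent.H588_FS
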